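import Pool.Agent.Helper58.PB.StM

/-!
# Project PB, module LFT: number of classes modulo `M` and lifting
-/

set_option autoImplicit false

namespace Pool.Agent.Helper95.PB

open Finset
open Pool.Agent.Helper48.BK (Cl)
open Pool.Agent.Helper58.PB

private theorem bez_LFT (a b c : ℕ) (h : Nat.gcd a (Nat.gcd b c) = 1) :
    ∃ x y z : ℤ, (a : ℤ) * x + b * y - c * z = 1 := by
  have h1 := Nat.gcd_eq_gcd_ab a (Nat.gcd b c)
  have h2 := Nat.gcd_eq_gcd_ab b c
  rw [h] at h1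
  refine ⟨Nat.gcdA a (Nat.gcd b c), Nat.gcdA b c * Nat.gcdB a (Nat.gcd b c),
    -(Nat.gcdB b c * Nat.gcdB a (Nat.gcd b c)), ?_⟩
  push_cast at h1 h2
  rw [h2] at h1
  linarith [h1]

/-- fibres over `ZMod M` -/
private def Fb (a b c M : ℕ) [NeZero M] (t : ZMod M) : Finset (ZMod M × ZMod M × ZMod M) :=
  univ.filter (fun x => (a : ZMod M) * x.1 + b * x.2.1 - c * x.2.2 = t)

private theorem Fb_card (a b c M : ℕ) [NeZero M] (h : Nat.gcd a (Nat.gcd b c) = 1) (t : ZMod M) :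
    (Fb a b c M t).card = M ^ 2 := by
  obtain ⟨x, y, z, hxyz⟩ := bez_LFT a b c h
  have hx : (a : ZMod M) * (x : ZMod M) + b * (y : ZMod M) - c * (z : ZMod M) = 1 := by
    have := congrArg (fun n : ℤ => (n : ZMod M)) hxyz
    push_cast at this
    simpa using this
  have heq : ∀ s : ZMod M, (Fb a b c M s).card = (Fb a b c M t).card := by
    intro s
    refine Finset.card_nbij'
      (fun v => (v.1 + (t - s) * x, v.2.1 + (t - s) * y, v.2.2 + (t - s) * z))
      (fun v => (v.1 - (t - s) * x, v.2.1 - (t - s) * y, v.2.2 - (t - s) * z)) ?_ ?_ ?_ ?_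
    · intro v hv
      simp only [Fb, coe_filter, mem_univ, true_and, Set.mem_ofPred_eq] at hv ⊢
      linear_combination hv + (t - s) * hx
    · intro v hv
      simp only [Fb, coe_filter, mem_univ, true_and, Set.mem_ofPred_eq] at hv ⊢
      linear_combination hv - (t - s) * hx
    · intro v _
      simp
    · intro v _
      simp
  have hsum : ∑ s : ZMod M, (Fb a b c M s).card = M ^ 3 := by
    have := Finset.card_eq_sum_card_fiberwise
      (f := fun x : ZMod M × ZMod M × ZMod M => (a : ZMod M) * x.1 + b * x.2.1 - c * x.2.2)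
      (s := univ) (t := univ) (fun _ _ => by simp)
    have h2 : (univ : Finset (ZMod M × ZMod M × ZMod M)).card = M ^ 3 := by
      simp [Finset.card_univ, Fintype.card_prod, ZMod.card]
      ring
    rw [← h2, this]
    rfl
  simp only [heq] at hsum
  rw [Finset.sum_const, Finset.card_univ, ZMod.card, smul_eq_mul] at hsum
  have hM : 0 < M := Nat.pos_of_ne_zero (NeZero.ne M)
  have : M * (Fb a b c M t).card = M * M ^ 2 := by rw [hsum]; ring
  exact Nat.eq_of_mul_eq_mul_left hM this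

private theorem card_Cl (a b c M : ℕ) (d : ℤ) (hM : 1 ≤ M) (h : Nat.gcd a (Nat.gcd b c) = 1) :
    (Cl a b c d M).card = M ^ 2 := by
  have : NeZero M := ⟨by omega⟩
  rw [← Fb_card a b c M h (d : ZMod M)]
  have key : ∀ u : ℕ × ℕ × ℕ, ((M : ℤ) ∣ a * u.1 + b * u.2.1 - c * u.2.2 - d) ↔
      (a : ZMod M) * (u.1 : ZMod M) + b * (u.2.1 : ZMod M) - c * (u.2.2 : ZMod M) = (d : ZMod M) := by
    intro u
    rw [← ZMod.intCast_zmod_eq_zero_iff_dvd]
    push_cast
    rw [sub_eq_zero]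
  refine Finset.card_nbij' (fun u => ((u.1 : ZMod M), (u.2.1 : ZMod M), (u.2.2 : ZMod M)))
    (fun v => (v.1.val, v.2.1.val, v.2.2.val)) ?_ ?_ ?_ ?_
  · intro u hu
    simp only [Cl, coe_filter, Set.mem_ofPred_eq] at hu
    simp only [Fb, coe_filter, mem_univ, true_and, Set.mem_ofPred_eq]
    exact (key u).1 hu.2
  · intro v hv
    simp only [Fb, coe_filter, mem_univ, true_and, Set.mem_ofPred_eq] at hv
    simp only [Cl, coe_filter, Set.mem_ofPred_eq, mem_product, mem_range]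
    refine ⟨⟨ZMod.val_lt _, ZMod.val_lt _, ZMod.val_lt _⟩,
      (key (v.1.val, v.2.1.val, v.2.2.val)).2 ?_⟩
    simp only [ZMod.natCast_val, ZMod.cast_id', id_eq]
    exact hv
  · intro u hu
    simp only [Cl, coe_filter, Set.mem_ofPred_eq, mem_product, mem_range] at hu
    obtain ⟨⟨h1, h2, h3⟩, -⟩ := hu
    simp only [ZMod.val_natCast, Nat.mod_eq_of_lt h1, Nat.mod_eq_of_lt h2, Nat.mod_eq_of_lt h3]
  · intro v _
    simp

private theorem fib_LFT (a b c M M' : ℕ) (d : ℤ) (hM : 1 ≤ M) (hM' : 1 ≤ M')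
    (h : Nat.gcd a (Nat.gcd b c) = 1) (v : ℕ × ℕ × ℕ) (hv : v ∈ Cl a b c d M) :
    ((Cl a b c d (M * M')).filter (fun u => (u.1 % M, u.2.1 % M, u.2.2 % M) = v)).card = M' ^ 2 := by
  simp only [Cl, mem_filter, mem_product, mem_range] at hv
  obtain ⟨⟨h1, h2, h3⟩, k, hk⟩ := hv
  rw [← card_Cl a b c M' (-k) hM' h]
  have hM0 : (M : ℤ) ≠ 0 := by exact_mod_cast (by omega : M ≠ 0)
  have key : ∀ w1 w2 w3 : ℕ, (((M * M' : ℕ) : ℤ) ∣ a * ((v.1 + M * w1 : ℕ) : ℤ) +
      b * ((v.2.1 + M * w2 : ℕ) : ℤ) - c * ((v.2.2 + M * w3 : ℕ) : ℤ) - d) ↔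
      ((M' : ℤ) ∣ a * w1 + b * w2 - c * w3 - (-k)) := by
    intro w1 w2 w3
    have e : (a : ℤ) * ((v.1 + M * w1 : ℕ) : ℤ) + b * ((v.2.1 + M * w2 : ℕ) : ℤ) -
        c * ((v.2.2 + M * w3 : ℕ) : ℤ) - d = M * (a * w1 + b * w2 - c * w3 - (-k)) := by
      push_cast
      linear_combination hk
    rw [e]
    push_cast
    exact mul_dvd_mul_iff_left hM0
  have hlt : ∀ x w : ℕ, x < M → w < M' → x + M * w < M * M' := by
    intro x w hx hw
    calc x + M * w < M + M * w := by omega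
      _ = M * (w + 1) := by ring
      _ ≤ M * M' := Nat.mul_le_mul_left _ hw
  refine Finset.card_nbij' (fun u => (u.1 / M, u.2.1 / M, u.2.2 / M))
    (fun w => (v.1 + M * w.1, v.2.1 + M * w.2.1, v.2.2 + M * w.2.2)) ?_ ?_ ?_ ?_
  · intro u hu
    simp only [Cl, coe_filter, mem_filter, mem_product, mem_range, Set.mem_ofPred_eq,
      Prod.ext_iff] at hu
    obtain ⟨⟨⟨a1, a2, a3⟩, hd⟩, b1, b2, b3⟩ := hu
    simp only [Cl, coe_filter, mem_product, mem_range, Set.mem_ofPred_eq]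
    have e1 : u.1 = v.1 + M * (u.1 / M) := by rw [← b1]; exact (Nat.mod_add_div _ _).symm
    have e2 : u.2.1 = v.2.1 + M * (u.2.1 / M) := by rw [← b2]; exact (Nat.mod_add_div _ _).symm
    have e3 : u.2.2 = v.2.2 + M * (u.2.2 / M) := by rw [← b3]; exact (Nat.mod_add_div _ _).symm
    refine ⟨⟨Nat.div_lt_of_lt_mul a1, Nat.div_lt_of_lt_mul a2, Nat.div_lt_of_lt_mul a3⟩, ?_⟩
    rw [← key, ← e1, ← e2, ← e3]
    exact hd
  · intro w hw
    simp only [Cl, coe_filter, mem_product, mem_range, Set.mem_ofPred_eq] at hw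
    obtain ⟨⟨a1, a2, a3⟩, hd⟩ := hw
    simp only [Cl, coe_filter, mem_filter, mem_product, mem_range, Set.mem_ofPred_eq,
      Prod.ext_iff]
    refine ⟨⟨⟨hlt _ _ h1 a1, hlt _ _ h2 a2, hlt _ _ h3 a3⟩, (key _ _ _).2 hd⟩, ?_, ?_, ?_⟩ <;>
      simp [Nat.add_mul_mod_self_left, Nat.mod_eq_of_lt, h1, h2, h3]
  · intro u hu
    simp only [Cl, coe_filter, mem_filter, mem_product, mem_range, Set.mem_ofPred_eq,
      Prod.ext_iff] at hu
    obtain ⟨-, b1, b2, b3⟩ := hu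
    refine Prod.ext ?_ (Prod.ext ?_ ?_)
    · show v.1 + M * (u.1 / M) = u.1
      rw [← b1]; exact Nat.mod_add_div _ _
    · show v.2.1 + M * (u.2.1 / M) = u.2.1
      rw [← b2]; exact Nat.mod_add_div _ _
    · show v.2.2 + M * (u.2.2 / M) = u.2.2
      rw [← b3]; exact Nat.mod_add_div _ _
  · intro w _
    have hMpos : 0 < M := hM
    refine Prod.ext ?_ (Prod.ext ?_ ?_)
    · show (v.1 + M * w.1) / M = w.1
      rw [Nat.add_mul_div_left _ _ hMpos, Nat.div_eq_of_lt h1, zero_add]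
    · show (v.2.1 + M * w.2.1) / M = w.2.1
      rw [Nat.add_mul_div_left _ _ hMpos, Nat.div_eq_of_lt h2, zero_add]
    · show (v.2.2 + M * w.2.2) / M = w.2.2
      rw [Nat.add_mul_div_left _ _ hMpos, Nat.div_eq_of_lt h3, zero_add]

/-- LFT -/
theorem hLft : StLft := by
  intro a b c M M' d hM hM' h
  refine ⟨card_Cl a b c M d hM h, ?_⟩
  intro φ hφ
  have hmaps : ∀ u ∈ Cl a b c d (M * M'), (u.1 % M, u.2.1 % M, u.2.2 % M) ∈ Cl a b c d M := by
    intro u hu
    simp only [Cl, mem_filter, mem_product, mem_range] at hu ⊢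
    obtain ⟨-, hd⟩ := hu
    refine ⟨⟨Nat.mod_lt _ hM, Nat.mod_lt _ hM, Nat.mod_lt _ hM⟩, ?_⟩
    have hd' : (M : ℤ) ∣ a * u.1 + b * u.2.1 - c * u.2.2 - d := by
      refine dvd_trans ?_ hd
      push_cast
      exact Dvd.intro _ rfl
    have e1 := Int.emod_add_mul_ediv (u.1 : ℤ) M
    have e2 := Int.emod_add_mul_ediv (u.2.1 : ℤ) M
    have e3 := Int.emod_add_mul_ediv (u.2.2 : ℤ) M
    have : (a : ℤ) * ((u.1 % M : ℕ) : ℤ) + b * ((u.2.1 % M : ℕ) : ℤ) - c * ((u.2.2 % M : ℕ) : ℤ) - d =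
        (a * u.1 + b * u.2.1 - c * u.2.2 - d) -
          M * (a * ((u.1 : ℤ) / M) + b * ((u.2.1 : ℤ) / M) - c * ((u.2.2 : ℤ) / M)) := by
      push_cast
      linear_combination (a : ℤ) * e1 + b * e2 - c * e3
    rw [this]
    exact dvd_sub hd' (Dvd.intro _ rfl)
  have hsum : ∑ u ∈ Cl a b c d (M * M'), φ u.1 u.2.1 u.2.2 =
      (M' : ℂ) ^ 2 * ∑ v ∈ Cl a b c d M, φ v.1 v.2.1 v.2.2 := by
    rw [← Finset.sum_fiberwise_of_maps_to hmaps, Finset.mul_sum]
    refine Finset.sum_congr rfl fun v hv => ?_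
    have : ∀ u ∈ (Cl a b c d (M * M')).filter (fun u => (u.1 % M, u.2.1 % M, u.2.2 % M) = v),
        φ u.1 u.2.1 u.2.2 = φ v.1 v.2.1 v.2.2 := by
      intro u hu
      rw [mem_filter] at hu
      obtain ⟨-, hv'⟩ := hu
      rw [← hv']
      exact hφ _ _ _ _ _ _ (Nat.mod_modEq _ _).symm (Nat.mod_modEq _ _).symm
        (Nat.mod_modEq _ _).symm
    rw [Finset.sum_congr rfl this, Finset.sum_const, fib_LFT a b c M M' d hM hM' h v hv,
      nsmul_eq_mul]
    push_cast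
    ring
  have hM0 : (M : ℂ) ≠ 0 := by exact_mod_cast (by omega : M ≠ 0)
  have hM0' : (M' : ℂ) ≠ 0 := by exact_mod_cast (by omega : M' ≠ 0)
  unfold En
  rw [hsum]
  push_cast
  field_simp

end Pool.Agent.Helper95.PB
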